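import Mathlib
import Pool.Agent.H.MP_1f2de8_an.G

namespace Pool.Agent.Results.MP_1f2de8_an.Sharp

open Complex Metric Finset PowerSeries Filter Topology

/-- The class `M(α)` of `α`-convex functions. -/
def M (α : ℝ) : Set (ℂ → ℂ) :=
  {f | DifferentiableOn ℂ f (ball 0 1) ∧ Set.InjOn f (ball 0 1) ∧ f 0 = 0 ∧ deriv f 0 = 1 ∧
    ∀ z ∈ ball (0 : ℂ) 1, z ≠ 0 →
      0 < (α * (1 + z * deriv (deriv f) z / deriv f z) + (1 - α) * (z * deriv f z / f z)).re}

/-- The power series `∑_{k ≥ 1} (2/α)(2/α + 1)⋯(2/α + k - 1) / (k! (1 + α k)) z^k`. -/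
noncomputable def c (α : ℝ) : PowerSeries ℝ :=
  PowerSeries.mk fun k =>
    if k = 0 then 0 else (∏ i ∈ range k, (2 / α + i)) / k.factorial / (1 + α * k)

/-- The coefficient of `z^n` in `z (1 + c)^α = z ∑_j binom(α, j) c^j`. -/
noncomputable def A (α : ℝ) (n : ℕ) : ℝ :=
  ∑ j ∈ range n, (∏ i ∈ range j, (α - i)) / j.factorial * PowerSeries.coeff (n - 1) (c α ^ j)

open Pool.Agent.H.MP_7a60ac_an Pool.Agent.H.MP_0e1b7e_an Pool.Agent.H.MP_1f2de8_an

theorem result (α : ℝ) (h0 : 0 < α) (h1 : α < 1) (n : ℕ) (hn : 2 ≤ n) :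
    IsGreatest ((fun f : ℂ → ℂ => ‖iteratedDeriv n f 0 / (n.factorial : ℂ)‖) '' M α) (A α n) := by
  obtain ⟨m, rfl⟩ : ∃ m, n = m + 1 := ⟨n - 1, by omega⟩
  have b := ball_mem_nhds (0 : ℂ) one_pos
  obtain ⟨W, Φ, d, hW, tφ, up⟩ := key h0 h1
  obtain ⟨u, du, u0, iu, ou, ku, P, hP, pw⟩ := extr h0 h1 d hW
  have sh : ∀ v f : ℂ → ℂ, DifferentiableOn ℂ v (ball 0 1) → (∀ z ∈ ball (0 : ℂ) 1, f z = z * v z) →
      iteratedDeriv (m + 1) f 0 / ((m + 1).factorial : ℂ) = co v m := fun v f dv e => by
    have := congrArg (coeff (m + 1)) ((ts_congr (mem_of_superset b e)).trans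
      (ts_mul (f := fun z => z) (by fun_prop) (dv.analyticAt b)))
    rw [ts_id, coeff_succ_X_mul] at this
    simpa only [ts, coeff_mk, co] using this
  have cu : ∀ k, co u k = A α (k + 1) := fun k => by
    have c0 : constantCoeff (PowerSeries.map ofRealHom (c α)) = 0 := by
      rw [← coeff_zero_eq_constantCoeff_apply, coeff_map]; simp [c]
    have e : P = 1 + PowerSeries.map ofRealHom (c α) := by
      ext j; rw [hP, map_add, coeff_map]; rcases j with _ | j <;> simp [c, coeff_one]
    have := (pw k).coeff_eq (by rw [e]; simp [c0]) (e ▸ isPow_bin c0 α k)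
    simpa [ts, A, bin, ← map_pow] using this
  have tu : ts u = PowerSeries.map ofRealHom (PowerSeries.mk fun k => A α (k + 1)) := by
    ext k; simp [ts, cu]
  have aW : AnalyticAt ℂ (fun z => (W z)⁻¹) 0 := (d.analyticAt b).inv fun e => by
    simpa [e] using (hW 0 (mem_ball_self one_pos)).1
  have au := du.analyticAt b
  replace up := up (PowerSeries.mk fun k => A α (k + 1)) (by simp [A]) (by
    have e : X * d⁄dX ℂ (ts u) = (ts (fun z => (W z)⁻¹) + C (-1)) * ts u := by
      rw [← ts_deriv, ← ts_id, ← ts_mul (by fun_prop) au.deriv, ← ts_const, ← ts_add aW (by fun_prop),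
        ← ts_mul (by fun_prop) au]
      exact ts_congr (mem_of_superset b ou)
    refine PowerSeries.map_injective ofRealHom ofReal_injective ?_
    rw [map_mul _ (Φ - 1), map_sub, map_one, ← tφ, ← tu, sub_eq_add_neg, ← map_one C, ← map_neg, ← e]
    ext k; rw [coeff_map]; simp [xd, ts, cu])
  have ub : ∀ f ∈ M α, ‖iteratedDeriv (m + 1) f 0 / ((m + 1).factorial : ℂ)‖ ≤ A α (m + 1) := by
    rintro f ⟨df, fi, f0, f1, hf⟩
    have d1 := df.deriv isOpen_ball
    have d2 := d1.deriv isOpen_ball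
    have n1 := (inv_an isOpen_ball (df.analyticOnNhd isOpen_ball) fi).2.2
    have dv := (differentiableOn_dslope b).2 df
    have v0 : dslope f 0 0 = 1 := by simp [f1]
    have e : ∀ z, f z = z * dslope f 0 z := fun z => by simpa [f0] using (sub_smul_dslope f 0 z).symm
    generalize dslope f 0 = v at dv v0 e
    have n2 : ∀ z ∈ ball (0 : ℂ) 1, v z ≠ 0 := fun z hz h => by
      rw [fi hz (mem_ball_self one_pos) (by rw [e, h, f0, mul_zero])] at h
      simp [v0] at h
    have e2 : ∀ z ∈ ball (0 : ℂ) 1, deriv f z = v z + z * deriv v z := fun z hz => by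
      rw [funext e, ((hasDerivAt_id' z).fun_mul
        (dv.differentiableAt (isOpen_ball.mem_nhds hz)).hasDerivAt).deriv, one_mul]
    rw [sh v f dv fun z _ => e z]
    simpa using up v (fun z => v z / deriv f z)
      (fun z => α * (1 + z * deriv (deriv f) z / deriv f z) + (1 - α) * (deriv f z / v z)) dv
      (dv.div d1 n1) (by fun_prop (disch := assumption)) v0 (by simp [v0, f1]) (by simp [v0, f1])
      (fun z hz => by
        rcases eq_or_ne z 0 with rfl | z0
        · simp [v0, f1]
        · have := hf z hz z0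
          rwa [e z, mul_div_mul_left _ _ z0] at this)
      (fun z hz => by
        have := n1 z hz
        have := n2 z hz
        rw [((dv.differentiableAt (isOpen_ball.mem_nhds hz)).hasDerivAt.fun_div
          (d1.differentiableAt (isOpen_ball.mem_nhds hz)).hasDerivAt (n1 z hz)).deriv]
        field_simp; linear_combination -α * deriv f z * e2 z hz)
      (fun z hz => by
        have := n2 z hz
        field_simp; linear_combination -e2 z hz) m
  have mem : (fun z => z * u z) ∈ M α := ⟨by fun_prop, iu, by simp, by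
    rw [((hasDerivAt_id' 0).fun_mul au.differentiableAt.hasDerivAt).deriv]; simp [u0],
    fun z hz z0 => by rw [ku z hz z0]; simpa using (k_re norm_one hz).2⟩
  refine ⟨⟨_, mem, ?_⟩, fun _ ⟨f, hf, e⟩ => e ▸ ub f hf⟩
  have := (norm_nonneg _).trans (ub _ mem)
  simp only
  rw [sh u _ du fun _ _ => rfl, cu, norm_real, Real.norm_of_nonneg this]

end Pool.Agent.Results.MP_1f2de8_an.Sharp
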